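import Pool.Agent.R278.Hom.Final

/-!
# A homogeneous strong Gurarii space that is not of universal disposition for separable spaces
-/

open TopologicalSpace

namespace Pool.Agent.Results.MP_c85420_an.HomogeneousNotSepDisposition

open Pool.Agent.R278.Hom

/-- Strong Gurarii spaces: isometric embeddings of subspaces of finite-dimensional spaces
extend. -/
def StrongGurarii (X : Type) [NormedAddCommGroup X] [NormedSpace ℝ X] : Prop :=
  ∀ (T : Type) [NormedAddCommGroup T] [NormedSpace ℝ T] [FiniteDimensional ℝ T]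
    (S : Submodule ℝ T) (f : S →ₗᵢ[ℝ] X), ∃ g : T →ₗᵢ[ℝ] X, ∀ s : S, g (s : T) = f s

/-- Homogeneity with respect to finite-dimensional subspaces. -/
def HomogeneousFD (X : Type) [NormedAddCommGroup X] [NormedSpace ℝ X] : Prop :=
  ∀ E F : Submodule ℝ X, FiniteDimensional ℝ E → FiniteDimensional ℝ F →
    ∀ h : E ≃ₗᵢ[ℝ] F, ∃ H : X ≃ₗᵢ[ℝ] X, ∀ x : E, H (x : X) = (h x : X)

/-- Universal disposition for separable Banach spaces: for separable Banach spaces `S ⊆ T` (given
by an isometric embedding `i`) isometric embeddings of `S` extend to `T`. -/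
def UniversalDispositionSeparable (X : Type) [NormedAddCommGroup X] [NormedSpace ℝ X] : Prop :=
  ∀ (S T : Type) [NormedAddCommGroup S] [NormedSpace ℝ S] [CompleteSpace S] [SeparableSpace S]
    [NormedAddCommGroup T] [NormedSpace ℝ T] [CompleteSpace T] [SeparableSpace T]
    (i : S →ₗᵢ[ℝ] T) (f : S →ₗᵢ[ℝ] X), ∃ g : T →ₗᵢ[ℝ] X, ∀ s, g (i s) = f s

/-- There is a strong Gurarii space which is homogeneous with respect to finite-dimensional
subspaces but not of universal disposition for separable spaces. -/
theorem result : ∃ (X : Type) (_ : NormedAddCommGroup X) (_ : NormedSpace ℝ X)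
    (_ : CompleteSpace X), StrongGurarii X ∧ HomogeneousFD X ∧
      ¬ UniversalDispositionSeparable X := by
  obtain ⟨X, i1, i2, i3, h⟩ := exists_good
  refine ⟨X, i1, i2, i3, fun T _ _ _ S f => h.strong T S f, fun E F hE _ φ => h.hom E F hE φ, ?_⟩
  intro hsep
  exact h.not_sep fun A B _ _ _ _ _ _ _ _ i f => hsep A B i f

end Pool.Agent.Results.MP_c85420_an.HomogeneousNotSepDisposition
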